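import Pool.Agent.BL.Main

set_option autoImplicit false

namespace Pool.Agent.Results.MP_529713_gt.BoundariesNotBilipschitz

open Pool.Agent.BL

/-- There are two closed connected Riemannian 3-manifolds with `K ≤ -1`, and `K = -1` for at least
one tangent plane, whose visual boundaries have the same Hausdorff dimension (which is larger
than `2`), but admit no bilipschitz bijection. Both metrics live on the same closed manifold
`G \ U`, with universal covering the open upper half space `U`, and the base point is
`oU = (0,0,1)`. -/
theorem result : ∃ (g₀ g₁ : V3 → V3 → V3 → ℝ) (G : Subgroup (Equiv.Perm U)),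
    IsModel U g₀ G ∧ IsModel U g₁ G ∧
      hausdorffDim (vis (fun x y : U => rdist U g₀ x y) oU) =
        hausdorffDim (vis (fun x y : U => rdist U g₁ x y) oU) ∧
      2 < hausdorffDim (vis (fun x y : U => rdist U g₀ x y) oU) ∧
      ¬ ∃ (f : Bdry (fun x y : U => rdist U g₀ x y) oU ≃ Bdry (fun x y : U => rdist U g₁ x y) oU)
        (L : ℝ), 0 < L ∧ ∀ ξ η,
          vis (fun x y : U => rdist U g₀ x y) oU ξ η / L ≤
            vis (fun x y : U => rdist U g₁ x y) oU (f ξ) (f η) ∧
          vis (fun x y : U => rdist U g₁ x y) oU (f ξ) (f η) ≤
            L * vis (fun x y : U => rdist U g₀ x y) oU ξ η :=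
  Pool.Agent.BL.Main.main

end Pool.Agent.Results.MP_529713_gt.BoundariesNotBilipschitz
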